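import Pool.Agent.N273.KE.Free

/-!
# Stallings' conjecture on dependence in free groups: a class of subgroups

`Cl φ` says that the homomorphism `φ` between free groups of finite rank belongs to the smallest
class which contains all homomorphisms with a left inverse (for instance isomorphisms and the
inclusions of free factors) and all positive elementary endomorphisms
`x_j ↦ c_0 x_j c_1 x_j ... x_j c_m` (`m ≥ 1`, the `c_i` are words in the other letters), `x_i ↦ x_i`
for `i ≠ j`, and which is closed under compositions and contains `φ` whenever it contains `ψ φ` for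
some `ψ`. For all `φ` in the class, dependence of elements of the image `S` of `φ` in the free group
implies dependence in `S`, for any number of elements.
-/

set_option autoImplicit false

namespace Pool.Agent.Results.MP_e9d015_al.PositiveClass

/-- The class of homomorphisms. -/
inductive Cl : ∀ {k m : ℕ}, (FreeGroup (Fin k) →* FreeGroup (Fin m)) → Prop
  | split {k m : ℕ} (φ : FreeGroup (Fin k) →* FreeGroup (Fin m))
      (ρ : FreeGroup (Fin m) →* FreeGroup (Fin k)) (h : ∀ x, ρ (φ x) = x) : Cl φ
  | elem {k : ℕ} (φ : FreeGroup (Fin k) →* FreeGroup (Fin k)) (j : Fin k)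
      (h1 : ∀ i, i ≠ j → φ (FreeGroup.of i) = FreeGroup.of i)
      (h2 : φ (FreeGroup.of j) ∈ Submonoid.closure ({FreeGroup.of j} ∪
        (Subgroup.closure {x | ∃ i, i ≠ j ∧ x = FreeGroup.of i} : Set (FreeGroup (Fin k)))))
      (h3 : φ (FreeGroup.of j) ∉ Subgroup.closure {x | ∃ i, i ≠ j ∧ x = FreeGroup.of i}) : Cl φ
  | comp {k l m : ℕ} (φ : FreeGroup (Fin k) →* FreeGroup (Fin l))
      (ψ : FreeGroup (Fin l) →* FreeGroup (Fin m)) (hφ : Cl φ) (hψ : Cl ψ) : Cl (ψ.comp φ)
  | cancel {k l m : ℕ} (φ : FreeGroup (Fin k) →* FreeGroup (Fin l))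
      (ψ : FreeGroup (Fin l) →* FreeGroup (Fin m)) (h : Cl (ψ.comp φ)) : Cl φ

theorem dp_of_cl {k m : ℕ} {φ : FreeGroup (Fin k) →* FreeGroup (Fin m)} (h : Cl φ) :
    Pool.Agent.N273.KE.DP φ := by
  induction h with
  | split φ ρ h => exact Pool.Agent.N273.KE.DP.retract ρ h
  | elem φ j h1 h2 h3 => exact Pool.Agent.N273.KE.dp_elem φ j h1 h2 h3
  | comp φ ψ _ _ hφ hψ => exact hφ.comp hψ
  | cancel φ ψ _ h => exact h.of_comp

theorem result :
    ∀ (k m : ℕ) (φ : FreeGroup (Fin k) →* FreeGroup (Fin m)), Cl φ →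
      ∀ (n : ℕ) (a : φ.range) (g : Fin n → φ.range),
        (∃ c : Fin n → FreeGroup (Fin m),
          (a : FreeGroup (Fin m)) =
            (List.ofFn (fun i => c i * (g i : FreeGroup (Fin m)) * (c i)⁻¹)).prod) →
        ∃ c : Fin n → φ.range, a = (List.ofFn (fun i => c i * g i * (c i)⁻¹)).prod := by
  intro k m φ h n a g hc
  exact Pool.Agent.N273.KE.dependent (dp_of_cl h) n a g hc

end Pool.Agent.Results.MP_e9d015_al.PositiveClass
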